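import Pool.Agent.helper70.FL.SpecZ

set_option autoImplicit false

namespace Pool.Agent.FL

theorem ZGR : ZGR_stmt := by
  intro N z
  induction N with
  | zero =>
    simp only [Nat.cast_zero, mul_zero, add_zero, pow_zero]
    rw [norm_inv]
    by_cases h : ‖Complex.Gammaℝ z‖ = 0
    · rw [h, zero_mul]
      exact zero_le_one
    · rw [mul_inv_cancel₀ h]
  | succ N ih =>
    by_cases h0 : z + 2 * (N : ℂ) = 0
    · have h1 : Complex.Gammaℝ z = 0 := by
        rw [Complex.Gammaℝ_eq_zero_iff]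
        exact ⟨N, by linear_combination h0⟩
      rw [h1, inv_zero, norm_zero, mul_zero]
      positivity
    · have h2 : z + 2 * ((N + 1 : ℕ) : ℂ) = (z + 2 * (N : ℂ)) + 2 := by
        push_cast
        ring
      rw [h2, Complex.Gammaℝ_add_two h0]
      have h3 : ‖z + 2 * (N : ℂ)‖ ≤ ‖z‖ + 2 * N := by
        refine (norm_add_le _ _).trans ?_
        have : ‖(2 * (N : ℂ))‖ = 2 * N := by
          rw [norm_mul, Complex.norm_natCast, Complex.norm_two]
        rw [this]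
      have hpi : ‖(Real.pi : ℂ)‖ = Real.pi := by
        rw [Complex.norm_real, Real.norm_eq_abs, abs_of_pos Real.pi_pos]
      have h4 : ‖Complex.Gammaℝ (z + 2 * (N : ℂ)) * (z + 2 * (N : ℂ)) / 2 / (Real.pi : ℂ)‖ ≤
          ‖Complex.Gammaℝ (z + 2 * (N : ℂ))‖ * (‖z‖ + 2 * N) := by
        rw [norm_div, norm_div, norm_mul, Complex.norm_two, hpi]
        have h5 : 0 ≤ ‖Complex.Gammaℝ (z + 2 * (N : ℂ))‖ * ‖z + 2 * (N : ℂ)‖ := by positivity
        have h6 := Real.pi_gt_three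
        calc ‖Complex.Gammaℝ (z + 2 * (N : ℂ))‖ * ‖z + 2 * (N : ℂ)‖ / 2 / Real.pi
            ≤ ‖Complex.Gammaℝ (z + 2 * (N : ℂ))‖ * ‖z + 2 * (N : ℂ)‖ := by
              rw [div_div]
              apply div_le_self h5
              linarith
          _ ≤ _ := mul_le_mul_of_nonneg_left h3 (norm_nonneg _)
      have h7 : (0 : ℝ) ≤ ‖z‖ + 2 * N := by positivity
      calc ‖Complex.Gammaℝ (z + 2 * (N : ℂ)) * (z + 2 * (N : ℂ)) / 2 / (Real.pi : ℂ)‖ *
            ‖(Complex.Gammaℝ z)⁻¹‖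
          ≤ (‖Complex.Gammaℝ (z + 2 * (N : ℂ))‖ * (‖z‖ + 2 * N)) * ‖(Complex.Gammaℝ z)⁻¹‖ :=
            mul_le_mul_of_nonneg_right h4 (norm_nonneg _)
        _ = (‖Complex.Gammaℝ (z + 2 * (N : ℂ))‖ * ‖(Complex.Gammaℝ z)⁻¹‖) * (‖z‖ + 2 * N) := by
            ring
        _ ≤ (‖z‖ + 2 * N) ^ N * (‖z‖ + 2 * N) := mul_le_mul_of_nonneg_right ih h7
        _ = (‖z‖ + 2 * N) ^ (N + 1) := by ring
        _ ≤ (‖z‖ + 2 * ((N + 1 : ℕ) : ℝ)) ^ (N + 1) := by
            apply pow_le_pow_left₀ h7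
            push_cast
            linarith

end Pool.Agent.FL
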